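import Mathlib

/-!
# Semi-rational and uniformly semi-rational groups
-/

namespace Pool.Agent.W_MP_a5b85f_al

/-- A group `H` is semi-rational if for every `x` in `H` there is an integer `m`, which may depend
on `x`, such that every generator `y` of the cyclic subgroup generated by `x` is conjugate in `H`
to `x` or to `x ^ m`. -/
def SemiRational (H : Type*) [Group H] : Prop :=
  ∀ x : H, ∃ m : ℤ, ∀ y : H, Subgroup.zpowers y = Subgroup.zpowers x →
    IsConj y x ∨ IsConj y (x ^ m)

/-- A group `H` is uniformly semi-rational if there is one integer `m` such that, for every `x` in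
`H`, every generator `y` of the cyclic subgroup generated by `x` is conjugate in `H` to `x` or to
`x ^ m`. -/
def UniformlySemiRational (H : Type*) [Group H] : Prop :=
  ∃ m : ℤ, ∀ x : H, ∀ y : H, Subgroup.zpowers y = Subgroup.zpowers x →
    IsConj y x ∨ IsConj y (x ^ m)

end Pool.Agent.W_MP_a5b85f_al
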