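import Mathlib

/-!
# A group of order 1536

The group `K` is the semidirect product `(W × W × Z/8) ⋊ (S_3 × C_2)`, where `W = F_2^2` is the
natural module of `S_3 = GL(2,2)`.  The factor `S_3` acts diagonally on `W × W`, the generator of
`C_2` swaps the two copies of `W`, and `S_3 × C_2` acts on `Z/8` through the character that sends
the transpositions of `S_3` to multiplication by `3` and the generator of `C_2` to multiplication
by `7`.

Coding: `v : Fin 16` is the pair `(w, w')` in `W × W` as `w + 4 w'` (addition is bitwise xor),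
`c : Fin 8` is the element of `Z/8`, and `h : Fin 12` is the element of `S_3 × C_2`, coded as
`2 s + t` with `s < 6` and `t < 2`.  The tables below are four-bit entries of natural numbers.
-/

namespace Pool.Agent.W_MP_a5b85f_al

/-- The action of `h` on `v` (table). -/
def act (h : Fin 12) (v : Fin 16) : Fin 16 :=
  Fin.ofNat 16 (0x59d16ae27bf348c056749ab8defc1230a6e295d1b7f384c0a9b86574edfc21305d917fb36ea24c805764dfec9ba81320f7b3d591e6a2c480fdec7564b9a83120ae62bf739d518c40ab98efdc67542310fb73ea62d951c840fedcba9876543210 >>> (4 * (16 * h.val + v.val)))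

/-- Multiplication in `S_3 × C_2` (table). -/
def hmul (h k : Fin 12) : Fin 12 :=
  Fin.ofNat 12 ((0x123456789ab1032547698ba45670123ab8954761032ba98230189ab4567321098ba547689ab2301674598ba321076546745ab8901237654ba981032ab8967452301ba9876543210 >>> (4 * (12 * h.val + k.val))) % 16)

/-- The inverse in `S_3 × C_2` (table). -/
def hinv (h : Fin 12) : Fin 12 :=
  Fin.ofNat 12 ((0xba7698543210 >>> (4 * h.val)) % 16)

/-- The character of `S_3 × C_2` with values in the units of `Z/8` (table). -/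
def chi (h : Fin 12) : Fin 8 :=
  Fin.ofNat 8 (0x537171535371 >>> (4 * h.val))

theorem act_zero : ∀ h : Fin 12, act h 0 = 0 := by decide +kernel
theorem act_one : ∀ v : Fin 16, act 0 v = v := by decide +kernel
theorem act_xor : ∀ (h : Fin 12) (v w : Fin 16), act h (v ^^^ w) = act h v ^^^ act h w := by
  decide +kernel
theorem act_hmul : ∀ (h k : Fin 12) (v : Fin 16), act (hmul h k) v = act h (act k v) := by
  decide +kernel
theorem hmul_assoc' : ∀ h k l : Fin 12, hmul (hmul h k) l = hmul h (hmul k l) := by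
  decide +kernel
theorem one_hmul : ∀ h : Fin 12, hmul 0 h = h := by decide +kernel
theorem hinv_hmul : ∀ h : Fin 12, hmul (hinv h) h = 0 := by decide +kernel
theorem chi_hmul : ∀ h k : Fin 12, chi (hmul h k) = chi h * chi k := by decide +kernel
theorem chi_one : chi 0 = 1 := by decide +kernel
theorem xor_assoc' : ∀ a b c : Fin 16, (a ^^^ b) ^^^ c = a ^^^ (b ^^^ c) := by decide +kernel
theorem zero_xor' : ∀ a : Fin 16, 0 ^^^ a = a := by decide +kernel
theorem xor_self' : ∀ a : Fin 16, a ^^^ a = 0 := by decide +kernel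
theorem fin8_mul_add : ∀ a b c : Fin 8, a * (b + c) = a * b + a * c := by decide +kernel
theorem fin8_mul_assoc : ∀ a b c : Fin 8, (a * b) * c = a * (b * c) := by decide +kernel
theorem fin8_add_assoc : ∀ a b c : Fin 8, (a + b) + c = a + (b + c) := by decide +kernel
theorem fin8_one_mul : ∀ a : Fin 8, 1 * a = a := by decide +kernel
theorem fin8_zero_add : ∀ a : Fin 8, 0 + a = a := by decide +kernel
theorem fin8_neg_add : ∀ a : Fin 8, -a + a = 0 := by decide +kernel

/-- The group `(W × W × Z/8) ⋊ (S_3 × C_2)` of order `1536`. -/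
@[ext]
structure K where
  v : Fin 16
  c : Fin 8
  h : Fin 12
deriving DecidableEq

instance : Mul K := ⟨fun x y => ⟨x.v ^^^ act x.h y.v, x.c + chi x.h * y.c, hmul x.h y.h⟩⟩
instance : One K := ⟨⟨0, 0, 0⟩⟩
instance : Inv K := ⟨fun x => ⟨act (hinv x.h) x.v, -(chi (hinv x.h) * x.c), hinv x.h⟩⟩

@[simp] theorem mul_v (x y : K) : (x * y).v = x.v ^^^ act x.h y.v := rfl
@[simp] theorem mul_c (x y : K) : (x * y).c = x.c + chi x.h * y.c := rfl
@[simp] theorem mul_h (x y : K) : (x * y).h = hmul x.h y.h := rfl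
@[simp] theorem one_v : (1 : K).v = 0 := rfl
@[simp] theorem one_c : (1 : K).c = 0 := rfl
@[simp] theorem one_h : (1 : K).h = 0 := rfl
@[simp] theorem inv_v (x : K) : (x⁻¹).v = act (hinv x.h) x.v := rfl
@[simp] theorem inv_c (x : K) : (x⁻¹).c = -(chi (hinv x.h) * x.c) := rfl
@[simp] theorem inv_h (x : K) : (x⁻¹).h = hinv x.h := rfl

instance : Group K := Group.ofLeftAxioms
  (by
    intro x y z
    ext1
    · simp only [mul_v, mul_h, act_xor, act_hmul, xor_assoc']
    · simp only [mul_c, mul_h, chi_hmul, fin8_mul_add, fin8_mul_assoc, fin8_add_assoc]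
    · simp only [mul_h, hmul_assoc'])
  (by
    intro x
    ext1
    · simp only [mul_v, one_v, one_h, act_one, zero_xor']
    · simp only [mul_c, one_c, one_h, chi_one, fin8_one_mul, fin8_zero_add]
    · simp only [mul_h, one_h, one_hmul])
  (by
    intro x
    ext1
    · simp only [mul_v, inv_v, inv_h, xor_self', one_v]
    · simp only [mul_c, inv_c, inv_h, fin8_neg_add, one_c]
    · simp only [mul_h, inv_h, hinv_hmul, one_h])

/-- `K` as a product of finite types. -/
def equivProd : K ≃ Fin 16 × Fin 8 × Fin 12 where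
  toFun x := (x.v, x.c, x.h)
  invFun p := ⟨p.1, p.2.1, p.2.2⟩
  left_inv _ := rfl
  right_inv _ := rfl

instance : Fintype K := Fintype.ofEquiv _ equivProd.symm

theorem card_K : Nat.card K = 1536 := by
  rw [Nat.card_congr equivProd]
  simp

/-- The conjugating elements used in the check. -/
def conjs : List K :=
  [⟨0, 0, 0⟩, ⟨0, 1, 0⟩, ⟨0, 0, 3⟩, ⟨5, 0, 3⟩, ⟨10, 0, 1⟩, ⟨15, 0, 1⟩, ⟨0, 0, 1⟩, ⟨5, 0, 1⟩,
    ⟨11, 0, 3⟩, ⟨14, 0, 3⟩, ⟨0, 0, 4⟩, ⟨0, 0, 10⟩, ⟨0, 0, 2⟩, ⟨0, 0, 5⟩, ⟨0, 0, 11⟩]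

/-- For all `x`, the fifth power of `x` is conjugate to `x` or to its inverse. -/
theorem check5 : ∀ (v : Fin 16) (c : Fin 8) (h : Fin 12), ∃ g ∈ conjs,
    g * ((⟨v, c, h⟩ : K) * ⟨v, c, h⟩ * (⟨v, c, h⟩ * ⟨v, c, h⟩) * ⟨v, c, h⟩) = ⟨v, c, h⟩ * g ∨
    (⟨v, c, h⟩ : K) * (g * ((⟨v, c, h⟩ : K) * ⟨v, c, h⟩ * (⟨v, c, h⟩ * ⟨v, c, h⟩) * ⟨v, c, h⟩))
      = g := by
  decide +kernel

end Pool.Agent.W_MP_a5b85f_al
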