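import Pool.Agent.W_MP_a5b85f_al.Grp
import Pool.Agent.W_MP_a5b85f_al.Defs

/-!
# The group `K` is uniformly semi-rational and its Sylow `2`-subgroup is not semi-rational
-/

namespace Pool.Agent.W_MP_a5b85f_al

/-- For all `x`, the seventh power of `x` is conjugate to `x` or to its inverse. -/
theorem check7 : ∀ (v : Fin 16) (c : Fin 8) (h : Fin 12), ∃ g ∈ conjs,
    g * ((⟨v, c, h⟩ : K) * ⟨v, c, h⟩ * (⟨v, c, h⟩ * ⟨v, c, h⟩) * (⟨v, c, h⟩ * ⟨v, c, h⟩)
      * ⟨v, c, h⟩) = ⟨v, c, h⟩ * g ∨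
    (⟨v, c, h⟩ : K) * (g * ((⟨v, c, h⟩ : K) * ⟨v, c, h⟩ * (⟨v, c, h⟩ * ⟨v, c, h⟩)
      * (⟨v, c, h⟩ * ⟨v, c, h⟩) * ⟨v, c, h⟩)) = g := by
  decide +kernel

/-- The cube of `x`. -/
def cube (x : K) : K := x * x * x

/-- The square of `x`. -/
def sq (x : K) : K := x * x

theorem check24 : ∀ (v : Fin 16) (c : Fin 8) (h : Fin 12),
    sq (sq (sq (cube ⟨v, c, h⟩))) = 1 := by
  decide +kernel

theorem pow24 (x : K) : x ^ 24 = 1 := by
  have h := check24 x.v x.c x.h
  have e : x ^ 24 = sq (sq (sq (cube x))) := by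
    simp only [sq, cube]
    rw [show (24 : ℕ) = 3 * 2 * 2 * 2 from rfl, pow_mul, pow_mul, pow_mul, pow_two, pow_two,
      pow_two, pow_succ, pow_two]
  rw [e]
  exact h

theorem isConj_inv' {G : Type*} [Group G] {a b : G} (h : IsConj a b) : IsConj a⁻¹ b⁻¹ := by
  rw [isConj_iff] at h ⊢
  obtain ⟨c, hc⟩ := h
  refine ⟨c, ?_⟩
  rw [← hc]
  group

/-- `Q j`: for all `x`, the power `x ^ j` is conjugate to `x` or to its inverse. -/
def Q (j : ℕ) : Prop := ∀ x : K, IsConj (x ^ j) x ∨ IsConj (x ^ j) x⁻¹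

theorem Q_mul {j k : ℕ} (hj : Q j) (hk : Q k) : Q (j * k) := by
  intro x
  rw [pow_mul]
  rcases hk (x ^ j) with h | h
  · rcases hj x with h' | h'
    · exact Or.inl (h.trans h')
    · exact Or.inr (h.trans h')
  · rcases hj x with h' | h'
    · exact Or.inr (h.trans (isConj_inv' h'))
    · refine Or.inl (h.trans ?_)
      have := isConj_inv' h'
      rwa [inv_inv] at this

theorem Q_congr {j k : ℕ} (h : j % 24 = k % 24) (hj : Q j) : Q k := by
  intro x
  have e : x ^ k = x ^ j := by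
    rw [← Nat.mod_add_div k 24, ← Nat.mod_add_div j 24, pow_add, pow_add, pow_mul, pow_mul,
      pow24, one_pow, one_pow, h]
  rw [e]
  exact hj x

theorem Q_one : Q 1 := fun x => Or.inl (by rw [pow_one])

theorem Q_23 : Q 23 := fun x => Or.inr (by
  have : x ^ 23 = x⁻¹ := by
    rw [eq_inv_iff_mul_eq_one, ← pow_succ, pow24]
  rw [this])

theorem isConj_of_check (x y g : K) (h : g * y = x * g ∨ x * (g * y) = g) :
    IsConj y x ∨ IsConj y x⁻¹ := by
  rcases h with h | h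
  · left
    rw [isConj_iff]
    refine ⟨g, ?_⟩
    rw [h, mul_inv_cancel_right]
  · right
    rw [isConj_iff]
    refine ⟨g, ?_⟩
    have : g * y = x⁻¹ * g := by rw [eq_inv_mul_iff_mul_eq, h]
    rw [this, mul_inv_cancel_right]

theorem Q_5 : Q 5 := by
  intro x
  obtain ⟨g, -, hg⟩ := check5 x.v x.c x.h
  have e : x ^ 5 = x * x * (x * x) * x := by
    simp only [pow_succ, pow_zero, one_mul, mul_assoc]
  rw [e]
  exact isConj_of_check x _ g hg

theorem Q_7 : Q 7 := by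
  intro x
  obtain ⟨g, -, hg⟩ := check7 x.v x.c x.h
  have e : x ^ 7 = x * x * (x * x) * (x * x) * x := by
    simp only [pow_succ, pow_zero, one_mul, mul_assoc]
  rw [e]
  exact isConj_of_check x _ g hg

theorem Q_coprime (j : ℕ) (hj : j.Coprime 24) : Q j := by
  have h35 := Q_mul Q_5 Q_7
  have hlt : j % 24 < 24 := Nat.mod_lt _ (by norm_num)
  have hco : (j % 24).Coprime 24 := by
    rw [Nat.coprime_iff_gcd_eq_one] at hj ⊢
    rw [← hj]
    exact (Nat.mod_modEq j 24).gcd_eq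
  have key : ∀ r < 24, r.Coprime 24 →
      r % 24 = 1 % 24 ∨ r % 24 = 5 % 24 ∨ r % 24 = 7 % 24 ∨ r % 24 = (5 * 7) % 24 ∨
      r % 24 = 23 % 24 ∨ r % 24 = (5 * 23) % 24 ∨ r % 24 = (7 * 23) % 24 ∨
      r % 24 = (5 * 7 * 23) % 24 := by decide
  have hmm : (j % 24) % 24 = j % 24 := Nat.mod_mod _ _
  rcases key _ hlt hco with h | h | h | h | h | h | h | h <;> rw [hmm] at h
  · exact Q_congr h.symm Q_one
  · exact Q_congr h.symm Q_5
  · exact Q_congr h.symm Q_7
  · exact Q_congr h.symm h35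
  · exact Q_congr h.symm Q_23
  · exact Q_congr h.symm (Q_mul Q_5 Q_23)
  · exact Q_congr h.symm (Q_mul Q_7 Q_23)
  · exact Q_congr h.symm (Q_mul h35 Q_23)

theorem lift_coprime (n : ℕ) (hn : n ∣ 24) (j : ℕ) (hj : n.Coprime j) :
    ∃ k, k.Coprime 24 ∧ k % n = j % n := by
  have hn' : n ≤ 24 := Nat.le_of_dvd (by norm_num) hn
  have hn0 : 0 < n := Nat.pos_of_dvd_of_pos hn (by norm_num)
  have key : ∀ n ≤ 24, n ∣ 24 → ∀ r < n, n.Coprime r → ∃ k < 24, k.Coprime 24 ∧ k % n = r % n := by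
    decide +kernel
  have hlt : j % n < n := Nat.mod_lt _ hn0
  have hco : n.Coprime (j % n) := by
    rw [Nat.coprime_iff_gcd_eq_one] at hj ⊢
    rw [← hj, Nat.gcd_comm, Nat.gcd_comm n j]
    exact (Nat.mod_modEq j n).gcd_eq
  obtain ⟨k, -, hk1, hk2⟩ := key n hn' hn (j % n) hlt hco
  exact ⟨k, hk1, by rw [hk2, Nat.mod_mod]⟩

/-- Generators of a finite cyclic subgroup are coprime powers. -/
theorem exists_pow_of_zpowers_eq {G : Type*} [Group G] [Finite G] {x y : G}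
    (h : Subgroup.zpowers y = Subgroup.zpowers x) :
    ∃ j : ℕ, (orderOf x).Coprime j ∧ y = x ^ j := by
  classical
  have hy : y ∈ Subgroup.zpowers x := h ▸ Subgroup.mem_zpowers y
  rw [mem_zpowers_iff_mem_range_orderOf] at hy
  obtain ⟨j, -, rfl⟩ := Finset.mem_image.mp hy
  refine ⟨j, ?_, rfl⟩
  have ho : orderOf (x ^ j) = orderOf x := by
    rw [← Nat.card_zpowers, ← Nat.card_zpowers, h]
  rw [orderOf_pow] at ho
  have hpos : 0 < orderOf x := orderOf_pos x
  rw [Nat.coprime_iff_gcd_eq_one]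
  have hd : Nat.gcd (orderOf x) j ∣ orderOf x := Nat.gcd_dvd_left _ _
  have := Nat.div_mul_cancel hd
  rw [ho] at this
  nlinarith [Nat.pos_of_ne_zero (fun h0 => by rw [h0] at this; omega : Nat.gcd (orderOf x) j ≠ 0)]

/-- Every generator of the cyclic group generated by `x` is conjugate in `K` to `x` or to the
inverse of `x`. -/
theorem K_inverse_semirational (x y : K) (h : Subgroup.zpowers y = Subgroup.zpowers x) :
    IsConj y x ∨ IsConj y (x ^ (-1 : ℤ)) := by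
  obtain ⟨j, hj, rfl⟩ := exists_pow_of_zpowers_eq h
  obtain ⟨k, hk, hkj⟩ := lift_coprime (orderOf x) (orderOf_dvd_of_pow_eq_one (pow24 x)) j hj
  have e : x ^ j = x ^ k := by
    rw [← pow_mod_orderOf x j, ← pow_mod_orderOf x k, hkj]
  rw [e, zpow_neg_one]
  exact Q_coprime k hk x

theorem K_uniformlySemiRational : UniformlySemiRational K := ⟨-1, K_inverse_semirational⟩

/-- The Sylow `2`-subgroup. -/
def P₀ : Subgroup K where
  carrier := {x | x.h.val < 4}
  mul_mem' := by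
    intro a b ha hb
    have key : ∀ h k : Fin 12, h.val < 4 → k.val < 4 → (hmul h k).val < 4 := by decide +kernel
    exact key a.h b.h ha hb
  one_mem' := by
    change (0 : Fin 12).val < 4
    decide
  inv_mem' := by
    intro a ha
    have key : ∀ h : Fin 12, h.val < 4 → (hinv h).val < 4 := by decide +kernel
    exact key a.h ha

theorem mem_P₀ (x : K) : x ∈ P₀ ↔ x.h.val < 4 := Iff.rfl

theorem card_P₀ : Nat.card P₀ = 512 := by
  have e : P₀ ≃ Fin 16 × Fin 8 × {h : Fin 12 // h.val < 4} :=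
    { toFun := fun x => (x.1.v, x.1.c, ⟨x.1.h, x.2⟩)
      invFun := fun p => ⟨⟨p.1, p.2.1, p.2.2.1⟩, p.2.2.2⟩
      left_inv := fun _ => rfl
      right_inv := fun _ => rfl }
  rw [Nat.card_congr e, Nat.card_eq_fintype_card, Fintype.card_prod, Fintype.card_prod]
  have : Fintype.card {h : Fin 12 // h.val < 4} = 4 := by decide
  rw [this]
  simp

/-- The Sylow `2`-subgroup as an element of `Sylow 2 K`. -/
noncomputable def P : Sylow 2 K :=
  have : Fact (Nat.Prime 2) := ⟨Nat.prime_two⟩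
  (IsPGroup.of_card (n := 9) (by rw [card_P₀]; norm_num)).toSylow (P := P₀) (by
    have h := P₀.card_mul_index
    rw [card_P₀, card_K] at h
    have : P₀.index = 3 := by omega
    rw [this]
    norm_num)

theorem P_coe : (P : Subgroup K) = P₀ := rfl

/-- The witness. -/
def x₀ : K := ⟨2, 1, 0⟩

theorem x₀_mem : x₀ ∈ (P : Subgroup K) := by
  change (0 : Fin 12).val < 4
  decide

theorem check_P : ∀ (v : Fin 16) (c : Fin 8) (h : Fin 12), h.val < 4 →
    (⟨v, c, h⟩ : K) * (x₀ * x₀ * x₀) ≠ x₀ * ⟨v, c, h⟩ ∧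
    (⟨v, c, h⟩ : K) * (x₀ * x₀ * x₀ * x₀ * x₀) ≠ x₀ * ⟨v, c, h⟩ ∧
    (⟨v, c, h⟩ : K) * (x₀ * x₀ * x₀ * x₀ * x₀ * x₀ * x₀) ≠ x₀ * ⟨v, c, h⟩ := by
  decide +kernel

theorem x₀_pow8 : x₀ ^ 8 = 1 := by decide +kernel

/-- The witness in the Sylow subgroup. -/
noncomputable def xP : (P : Subgroup K) := ⟨x₀, x₀_mem⟩

theorem xP_pow8 : xP ^ 8 = 1 := by
  ext1
  exact x₀_pow8

theorem not_conj (j : ℕ) (hj : j = 3 ∨ j = 5 ∨ j = 7) : ¬ IsConj (xP ^ j) xP := by
  intro h
  rw [isConj_iff] at h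
  obtain ⟨g, hg⟩ := h
  have hg' : (g : K) * x₀ ^ j = x₀ * (g : K) := by
    have h1 : (g : K) * x₀ ^ j * (g : K)⁻¹ = x₀ := congrArg Subtype.val hg
    exact mul_inv_eq_iff_eq_mul.mp h1
  have hmem : (g : K).h.val < 4 := (mem_P₀ _).mp g.2
  have hc := check_P (g : K).v (g : K).c (g : K).h hmem
  rcases hj with rfl | rfl | rfl
  · apply hc.1
    simpa only [pow_succ, pow_zero, one_mul] using hg'
  · apply hc.2.1
    simpa only [pow_succ, pow_zero, one_mul] using hg'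
  · apply hc.2.2
    simpa only [pow_succ, pow_zero, one_mul] using hg'

/-- Odd powers of the witness generate the same cyclic subgroup. -/
theorem zpowers_pow (j k : ℕ) (h : (j * k) % 8 = 1) :
    Subgroup.zpowers (xP ^ j) = Subgroup.zpowers xP := by
  apply le_antisymm
  · rw [Subgroup.zpowers_le]
    exact Subgroup.pow_mem _ (Subgroup.mem_zpowers _) _
  · rw [Subgroup.zpowers_le]
    have e : (xP ^ j) ^ k = xP := by
      rw [← pow_mul, ← Nat.mod_add_div (j * k) 8, h, pow_add, pow_mul, xP_pow8, one_pow, pow_one,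
        mul_one]
    have : (xP ^ j) ^ k ∈ Subgroup.zpowers (xP ^ j) :=
      Subgroup.pow_mem _ (Subgroup.mem_zpowers _) _
    rwa [e] at this

theorem P_not_semiRational : ¬ SemiRational (P : Subgroup K) := by
  intro h
  obtain ⟨m, hm⟩ := h xP
  have h3 := (hm (xP ^ 3) (zpowers_pow 3 3 rfl)).resolve_left (not_conj 3 (by simp))
  have h5 := (hm (xP ^ 5) (zpowers_pow 5 5 rfl)).resolve_left (not_conj 5 (by simp))
  have h35 : IsConj (xP ^ 3) (xP ^ 5) := h3.trans h5.symm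
  have h9 : IsConj ((xP ^ 5) ^ 3) ((xP ^ 3) ^ 3) := (h35.symm).pow 3
  have e1 : (xP ^ 3) ^ 3 = xP := by
    rw [← pow_mul, show 3 * 3 = 8 + 1 from rfl, pow_add, xP_pow8, one_mul, pow_one]
  have e2 : (xP ^ 5) ^ 3 = xP ^ 7 := by
    rw [← pow_mul, show 5 * 3 = 8 + 7 from rfl, pow_add, xP_pow8, one_mul]
  rw [e1, e2] at h9
  exact not_conj 7 (by simp) h9

end Pool.Agent.W_MP_a5b85f_al
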